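import Pool.Agent.U922.XR.C

set_option autoImplicit false

/-!
# MP_71ac24_nt: arbitrary bounded coefficients twisted by almost any polynomial phase

Let `A ≥ 1`, `0 < ε ≤ 1/2`, let `k ≥ 3 (A/ε)^3` be an integer and `(b_n)` ANY sequence of complex numbers with `|b_n| ≤ 1`. For
almost every real polynomial `P` of degree at most `k` there is `K` such that for ALL `N ≥ 1`, all real `t` with `|t| ≤ N^A` and
all real polynomials `Q` of degree at most `(A/ε)^2 + 2A/ε` one has `|∑_{n ≤ N} b_n e(P(n) + Q(n)) n^{it}| ≤ K N^(1/2 + ε)`.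
So the inequality of Montgomery's conjecture holds for the coefficients `b_n e(P(n))`, for all `N` and `T ≤ N^A`, and all finite
sets of points, separated or not, without the term `N^2`; even the supremum over the `Q` may be taken in every point.

Proof: for fixed lower-order power sums the mean value over the coefficients of `P` is bounded by the Vinogradov mean value, for
arbitrary bounded coefficients; this bounds the supremum over all polynomials of bounded degree on all blocks `(a, a + M]`,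
`M ≤ a`, at once; on blocks of length `N^(1 - ε/(2A))` the function `t log n` is replaced by its Taylor polynomial.
-/

namespace Pool.Agent.Results.MP_71ac24_nt.GenericTwist

open Finset MeasureTheory

/-- the Dirichlet polynomial `∑_{n ≤ N} a_n n^{it}` -/
noncomputable def D (N : ℕ) (a : ℕ → ℂ) (t : ℝ) : ℂ :=
  ∑ n ∈ Finset.Icc 1 N, a n * Complex.exp (Complex.I * (t : ℂ) * (Real.log (n : ℝ) : ℂ))

/-- the coefficients `b_n e(θ_1 n + ... + θ_k n^k + Q(n))` -/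
noncomputable def twist (k : ℕ) (θ : Fin k → ℝ) (Q : Polynomial ℝ) (b : ℕ → ℂ) (n : ℕ) : ℂ :=
  b n * Complex.exp (2 * Real.pi * Complex.I * ((∑ j : Fin k, θ j * (n : ℝ) ^ ((j : ℕ) + 1) + Q.eval (n : ℝ) : ℝ) : ℂ))

theorem D_eq (k : ℕ) (θ : Fin k → ℝ) (Q : Polynomial ℝ) (b : ℕ → ℂ) (N : ℕ) (t : ℝ) : D N (twist k θ Q b) t =
    ∑ n ∈ Icc 1 N, b n * Pool.Agent.W928.MW.e ((t / (2 * Real.pi) * Real.log n + Q.eval (n : ℝ)) +
      Pool.Agent.U922.MV.lo k θ n) := by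
  unfold D twist Pool.Agent.W928.MW.e Pool.Agent.U922.MV.lo
  refine Finset.sum_congr rfl fun n _ => ?_
  rw [mul_assoc, ← Complex.exp_add]
  congr 2
  have hpi : (Real.pi : ℂ) ≠ 0 := by exact_mod_cast Real.pi_ne_zero
  push_cast
  field_simp
  ring

/-- For every bounded sequence `b` and almost every polynomial phase of degree at most `k`, `k ≥ 3 (A/ε)^3`: square root
cancellation for all `N`, all `|t| ≤ N^A` and all additional polynomial phases of bounded degree at once, and the inequality of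
the question for all finite sets. -/
theorem result (A ε : ℝ) (hA : 1 ≤ A) (hε : 0 < ε) (hε2 : ε ≤ 1 / 2) (k : ℕ) (hk : 3 * (A / ε) ^ 3 ≤ k)
    (b : ℕ → ℂ) (hb : ∀ n, ‖b n‖ ≤ 1) :
    ∀ᵐ θ : Fin k → ℝ, ∃ K : ℝ, ∀ N : ℕ, 1 ≤ N →
      (∀ t : ℝ, |t| ≤ (N : ℝ) ^ A → ∀ Q : Polynomial ℝ, Q.natDegree ≤ ⌊(A / ε) ^ 2 + 2 * (A / ε)⌋₊ →
        ‖D N (twist k θ Q b) t‖ ≤ K * (N : ℝ) ^ (1 / 2 + ε)) ∧
      (∀ S : Finset ℝ, (∀ t ∈ S, |t| ≤ (N : ℝ) ^ A) → ∀ Q : ℝ → Polynomial ℝ,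
        (∀ t ∈ S, (Q t).natDegree ≤ ⌊(A / ε) ^ 2 + 2 * (A / ε)⌋₊) →
        ∑ t ∈ S, ‖D N (twist k θ (Q t) b) t‖ ^ 2 ≤ K * (N : ℝ) ^ (2 * ε) * (S.card : ℝ) * (N : ℝ)) := by
  filter_upwards [Pool.Agent.U922.XR.main A ε hA hε hε2 k hk b hb] with θ hθ
  obtain ⟨K, hK1, hK⟩ := hθ
  have h1 : ∀ N : ℕ, 1 ≤ N → ∀ t : ℝ, |t| ≤ (N : ℝ) ^ A → ∀ Q : Polynomial ℝ,
      Q.natDegree ≤ ⌊(A / ε) ^ 2 + 2 * (A / ε)⌋₊ → ‖D N (twist k θ Q b) t‖ ≤ K * (N : ℝ) ^ (1 / 2 + ε) := by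
    intro N hN t ht Q hQ
    rw [D_eq]
    refine hK N hN _ ?_ Q hQ
    rw [abs_div, abs_of_pos (by positivity : (0 : ℝ) < 2 * Real.pi)]
    refine (div_le_self (abs_nonneg _) ?_).trans ht
    linarith [Real.pi_gt_three]
  refine ⟨K ^ 2, fun N hN => ⟨fun t ht Q hQ => (h1 N hN t ht Q hQ).trans ?_, fun S hS Q hQ => ?_⟩⟩
  · refine mul_le_mul_of_nonneg_right ?_ (by positivity)
    nlinarith
  · have hN1 : (1 : ℝ) ≤ N := by exact_mod_cast hN
    have hN0 : (0 : ℝ) < N := by linarith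
    have h2 : ∀ t ∈ S, ‖D N (twist k θ (Q t) b) t‖ ^ 2 ≤ K ^ 2 * (N : ℝ) ^ (2 * ε) * (N : ℝ) := by
      intro t ht
      have h3 := pow_le_pow_left₀ (norm_nonneg _) (h1 N hN t (hS t ht) (Q t) (hQ t ht)) 2
      refine h3.trans (le_of_eq ?_)
      rw [mul_pow, ← Real.rpow_natCast ((N : ℝ) ^ (1 / 2 + ε)) 2, ← Real.rpow_mul hN0.le, mul_assoc]
      congr 1
      rw [← Real.rpow_add_one hN0.ne']
      congr 1
      push_cast
      ring
    refine (Finset.sum_le_card_nsmul _ _ _ h2).trans (le_of_eq ?_)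
    rw [nsmul_eq_mul]
    ring

end Pool.Agent.Results.MP_71ac24_nt.GenericTwist
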