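import Pool.Agent.U160.RF.Moments

/-!
# The mean square over arbitrary sets and all moments for randomly perturbed integers

For almost every choice of independent uniform `θ n ∈ [0,1]` the polynomials `∑_{n ≤ N} a_n (n + θ n)^{-it}` satisfy
the conjectured bound for the mean square over every 1-separated set and every measurable set of polynomial size,
and the conjectured bound for all moments, with powers of `log N` in place of `N^ε`.
-/

set_option autoImplicit false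

namespace Pool.Agent.Results.MP_71ac24_nt.PerturbedIntegers

open MeasureTheory Finset Filter Pool.Agent.U160.RF

/-- the Dirichlet polynomial `∑_{n ≤ N} a_n (n + θ n)^{-it}` -/
noncomputable def D (θ : ℕ → ℝ) (a : ℕ → ℂ) (N : ℕ) (t : ℝ) : ℂ :=
  ∑ n ∈ Finset.Icc 1 N, a n * ((n + θ n : ℝ) : ℂ) ^ (-((t : ℂ) * Complex.I))

/-- **Montgomery's conjecture for almost every perturbation of the integers.** Let `θ 0, θ 1, ...` be independent
and uniform on `[0,1]`. For almost every `θ` and every natural number `B` there is `C` such that for all `N ≥ 2`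
and all real `t₀`: (1) `∑_{t ∈ S} |D(t)|² ≤ C (N + |S|) (log N)^5 ∑ |a_n|²` for all complex `a_n` and all
1-separated finite `S` in `[t₀, t₀ + N^B]`; (2) the same for the integral over any measurable subset `E` of this
interval, `|S|` replaced by the measure of `E`; (3) for every real `p ≥ 2` there is `C'`, with
`∫ |D(t)|^p ≤ C' (log N)^(5p/2) (T N^(p/2) + N^p)` over `[t₀, t₀ + T]`, for all `T ≤ N^B` and all `|a_n| ≤ 1`. -/
theorem result :
    ∀ᵐ θ : ℕ → ℝ ∂(Measure.infinitePi fun _ : ℕ => (volume : Measure ℝ).restrict (Set.Icc 0 1)),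
      ∀ B : ℕ, ∃ C : ℝ, 0 < C ∧
        (∀ (N : ℕ) (t₀ : ℝ) (a : ℕ → ℂ) (S : Finset ℝ), 2 ≤ N →
          (∀ t ∈ S, t₀ ≤ t ∧ t ≤ t₀ + (N : ℝ) ^ B) →
          (∀ t ∈ S, ∀ u ∈ S, t ≠ u → 1 ≤ |t - u|) →
          ∑ t ∈ S, ‖D θ a N t‖ ^ 2 ≤
            C * ((N + S.card) * Real.log N ^ 5) * ∑ n ∈ Finset.Icc 1 N, ‖a n‖ ^ 2) ∧
        (∀ (N : ℕ) (t₀ : ℝ) (a : ℕ → ℂ) (E : Set ℝ), 2 ≤ N → MeasurableSet E →
          E ⊆ Set.Icc t₀ (t₀ + (N : ℝ) ^ B) →
          ∫ t in E, ‖D θ a N t‖ ^ 2 ≤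
            C * ((N + volume.real E) * Real.log N ^ 5) * ∑ n ∈ Finset.Icc 1 N, ‖a n‖ ^ 2) ∧
        (∀ p : ℝ, 2 ≤ p → ∃ C' : ℝ, 0 < C' ∧ ∀ (N : ℕ) (t₀ T : ℝ) (a : ℕ → ℂ), 2 ≤ N → 0 ≤ T → T ≤ (N : ℝ) ^ B →
          (∀ n, ‖a n‖ ≤ 1) →
          ∫ t in t₀..(t₀ + T), ‖D θ a N t‖ ^ p ≤
            C' * Real.log N ^ (5 * p / 2) * (T * (N : ℝ) ^ (p / 2) + (N : ℝ) ^ p)) := by
  have h1 := dd_mem
  have h3 := ae_all_iff.2 ae_lsum
  rw [show (Measure.infinitePi fun _ : ℕ => (volume : Measure ℝ).restrict (Set.Icc 0 1)) = mu from rfl]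
  filter_upwards [h1, h3] with θ hθ hs
  intro B
  obtain ⟨C₀, h⟩ := hs B
  set C : ℝ := max C₀ 7 with hC
  have hC1 : 7 ≤ C := le_max_right _ _
  have hC0 : 0 < C := by linarith
  have hD : ∀ a N t, D θ a N t = DD (fun k => a (k + 1)) θ N t := fun a N t => dd_link θ hθ a N t
  have hfirst : ∀ (N : ℕ) (t₀ : ℝ) (a : ℕ → ℂ) (S : Finset ℝ), 2 ≤ N →
          (∀ t ∈ S, t₀ ≤ t ∧ t ≤ t₀ + (N : ℝ) ^ B) →
          (∀ t ∈ S, ∀ u ∈ S, t ≠ u → 1 ≤ |t - u|) →
          ∑ t ∈ S, ‖D θ a N t‖ ^ 2 ≤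
            C * ((N + S.card) * Real.log N ^ 5) * ∑ n ∈ Finset.Icc 1 N, ‖a n‖ ^ 2 := by
    intro N t₀ a S hN h0 hS
    have h5 := h N hN t₀ S hS h0 (fun k => a (k + 1))
    rw [dd_nb]
    simp_rw [hD]
    refine h5.trans ?_
    have hlog : 0 ≤ Real.log N := Real.log_nonneg (by exact_mod_cast (by omega : 1 ≤ N))
    apply mul_le_mul_of_nonneg_right _ (nb_nonneg _ _)
    exact mul_le_mul_of_nonneg_right (le_max_left _ _) (by positivity)
  have hcont : ∀ (a : ℕ → ℂ) (N : ℕ), Continuous (fun t => D θ a N t) := by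
    intro a N
    simp_rw [hD]
    exact dd_cont _ _ _
  have hsecond : ∀ (N : ℕ) (t₀ : ℝ) (a : ℕ → ℂ) (E : Set ℝ), 2 ≤ N → MeasurableSet E →
          E ⊆ Set.Icc t₀ (t₀ + (N : ℝ) ^ B) →
          ∫ t in E, ‖D θ a N t‖ ^ 2 ≤
            C * ((N + volume.real E) * Real.log N ^ 5) * ∑ n ∈ Finset.Icc 1 N, ‖a n‖ ^ 2 := by
    intro N t₀ a E hN hE hEI
    have h5 := set_integral_le (fun t => ‖D θ a N t‖ ^ 2) ((hcont a N).norm.pow 2) (fun t => sq_nonneg _) N
      (C * Real.log N ^ 5 * ∑ n ∈ Finset.Icc 1 N, ‖a n‖ ^ 2) t₀ (N ^ B) ?_ E hE (by push_cast; exact hEI)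
    · refine h5.trans (le_of_eq ?_)
      ring
    · intro S hS h0
      refine (hfirst N t₀ a S hN (by push_cast at h0; exact h0) hS).trans (le_of_eq ?_)
      ring
  refine ⟨C, hC0, hfirst, hsecond, ?_⟩
  intro p hp
  refine ⟨(2 * C) ^ (p / 2), by positivity, ?_⟩
  intro N t₀ T a hN hT hTB ha
  have hN2 : (2 : ℝ) ≤ N := by exact_mod_cast hN
  have hlog2 : 0.69 < Real.log 2 := by have := Real.log_two_gt_d9; linarith
  have hlogN : 0.69 ≤ Real.log N := by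
    have := Real.log_le_log (by norm_num) hN2
    linarith
  have hl5 : (0.69 : ℝ) ^ 5 ≤ Real.log N ^ 5 := pow_le_pow_left₀ (by norm_num) hlogN 5
  have hL : 1 ≤ C * Real.log N ^ 5 := by
    have h6 : (7 : ℝ) * 0.69 ^ 5 ≤ C * Real.log N ^ 5 := mul_le_mul hC1 hl5 (by norm_num) hC0.le
    have h7 : (1 : ℝ) ≤ 7 * 0.69 ^ 5 := by norm_num
    linarith
  have hsum : ∑ n ∈ Finset.Icc 1 N, ‖a n‖ ^ 2 ≤ N := by
    calc ∑ n ∈ Finset.Icc 1 N, ‖a n‖ ^ 2 ≤ ∑ n ∈ Finset.Icc 1 N, (1 : ℝ) := by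
          refine sum_le_sum fun n _ => ?_
          exact pow_le_one₀ (norm_nonneg _) (ha n)
      _ = N := by simp
  have h8 := moments (fun t => ‖D θ a N t‖) (hcont a N).norm (fun t => norm_nonneg _) N (by linarith)
    (fun t => by rw [hD]; exact dd_le _ (fun n => ha _) θ N t) (C * Real.log N ^ 5) hL t₀ T hT ?_ p hp
  · refine h8.trans (le_of_eq ?_)
    have h9 : (2 * (C * Real.log N ^ 5)) ^ (p / 2) = (2 * C) ^ (p / 2) * Real.log N ^ (5 * p / 2) := by
      rw [← mul_assoc, Real.mul_rpow (by positivity) (by positivity), ← Real.rpow_natCast,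
        ← Real.rpow_mul (by linarith)]
      congr 2
      push_cast; ring
    rw [h9]
  · intro E hE hEI
    have h10 := hsecond N t₀ a E hN hE (hEI.trans (Set.Icc_subset_Icc_right (by linarith)))
    have h11 : 0 ≤ C * ((N + volume.real E) * Real.log N ^ 5) := by
      have : 0 ≤ volume.real E := measureReal_nonneg
      positivity
    calc ∫ t in E, ‖D θ a N t‖ ^ 2 ≤ C * ((N + volume.real E) * Real.log N ^ 5) * ∑ n ∈ Finset.Icc 1 N, ‖a n‖ ^ 2 := h10
      _ ≤ C * ((N + volume.real E) * Real.log N ^ 5) * N := mul_le_mul_of_nonneg_left hsum h11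
      _ = C * Real.log N ^ 5 * (N + volume.real E) * N := by ring

end Pool.Agent.Results.MP_71ac24_nt.PerturbedIntegers
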