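import Mathlib
import Pool.Agent.U759.PV.Fin

set_option autoImplicit false

/-!
# Montgomery's conjecture for Dirichlet polynomials supported on values of polynomials

For every `A ≥ 1`, `K ≥ 1`, `0 < μ ≤ 1`, `ω > 0` there is `c > 0` such that the inequality of Q1 holds, without the
loss `N^ε` and for all `T ≤ N^A`, for all coefficients bounded by `1` supported on the values `P_j(x)`,
`0 ≤ x < L_j`, of any polynomials `P_j` of degree at most `K` which take integral values in `[N/2, N]` at these `x`,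
where `L_j ≥ N^μ`, `∑ L_j ≤ N^(1/2+c)` and where the values of `P_j` vary by at least `ω N`; and on any `N^(1/2)`
further integers of `[N/2, N]`. For instance, on all integers of `[N/2, N]` at distance at most `N^(1/2-1/k+c)` from
a perfect `k`-th power, or on the values of any polynomial in several variables on `N^(1/2+c)` points which form
long lines in the direction of one variable.

Proof. The weighted large sieve inequality of Halász and Montgomery; the kernel is a sum of the sums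
`∑_{x < L_j} P_j(x)^{it}`, which save a power of `N` for `N ≤ |t| ≤ N^A`. For this the interval is divided into short
blocks; by van der Corput's method the sum over a block saves a power if a certain derivative of `log P_j` and the
next one are not too small there. The numerators of the derivatives of `log P` are polynomials which do not vanish
identically if `P` is not constant (their leading coefficients are computed), so by compactness they have size at
least `c` somewhere, uniformly in the normalised `P_j`, and by Lagrange interpolation they are small on few blocks.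
-/

namespace Pool.Agent.Results.MP_71ac24_nt.PolynomialValues

open Finset Polynomial

/-- `D(t) = ∑_{n ≤ N} a_n n^{it}` -/
noncomputable def D (N : ℕ) (a : ℕ → ℂ) (t : ℝ) : ℂ :=
  ∑ n ∈ Icc 1 N, a n * Complex.exp (Complex.I * (t : ℂ) * (Real.log (n : ℝ) : ℂ))

/-- `n` lies in `E` or is one of the values `P_j(0), P_j(1), …, P_j(L_j - 1)`, `j ∈ J` -/
def Supp (J : Finset ℕ) (P : ℕ → ℝ[X]) (L : ℕ → ℕ) (E : Finset ℕ) (n : ℕ) : Prop :=
  n ∈ E ∨ ∃ j ∈ J, ∃ x < L j, (P j).eval (x : ℝ) = n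

/-- For `j ∈ J` the polynomial `P_j` has degree at most `K`, takes integral values in `[N/2, N]` at
`0, 1, …, L_j - 1`, two of these values differ by at least `ω N`, and `L_j ≥ N^μ`; moreover `∑ L_j ≤ N^(1/2+c)`
and `E` has at most `N^(1/2)` elements. -/
def Thin (N : ℕ) (μ ω c : ℝ) (K : ℕ) (J : Finset ℕ) (P : ℕ → ℝ[X]) (L : ℕ → ℕ) (E : Finset ℕ) : Prop :=
  (∀ j ∈ J, (P j).natDegree ≤ K ∧ (N : ℝ) ^ μ ≤ L j ∧
    (∀ x < L j, ∃ n : ℕ, (P j).eval (x : ℝ) = n ∧ N ≤ 2 * n ∧ n ≤ N) ∧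
    ∃ x < L j, ∃ y < L j, ω * N ≤ (P j).eval (x : ℝ) - (P j).eval (y : ℝ)) ∧
    ∑ j ∈ J, (L j : ℝ) ≤ (N : ℝ) ^ (1 / 2 + c) ∧ (E.card : ℝ) ≤ (N : ℝ) ^ (1 / 2 : ℝ)

open Pool.Agent.U759.PV in
/-- Let `A ≥ 1` (for Q1: `A = 2`), `K ≥ 1`, `0 < μ ≤ 1`, `ω > 0`. There are `c > 0` and `C` such that for all
`T ≤ N^A`, all polynomials and all `E` satisfying `Thin`, all complex `a_1, …, a_N` vanishing outside the integers of
`[N/2, N]` which are values `P_j(x)`, `x < L_j`, or lie in `E`, and all `1`-separated `S ⊂ [0,T]`: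
`∑_{t ∈ S} |D(t)|² ≤ C (N + |S|) N` if `|a_n| ≤ 1` for all `n`; and
`∑_{t ∈ S} |D(t)|² ≤ C (N^(3/2-c) + |S| N^(1/2-c)) ∑ |a_n|²` if `E` is empty. -/
theorem result (A μ ω : ℝ) (K : ℕ) (hA : 1 ≤ A) (hμ : 0 < μ) (hμ1 : μ ≤ 1) (hω : 0 < ω) (hK : 1 ≤ K) :
    ∃ c C : ℝ, 0 < c ∧ ∀ (N : ℕ) (J : Finset ℕ) (P : ℕ → ℝ[X]) (L : ℕ → ℕ) (E : Finset ℕ) (T : ℝ) (a : ℕ → ℂ),
      1 ≤ N → Thin N μ ω c K J P L E → T ≤ (N : ℝ) ^ A →
      (∀ n ∈ Icc 1 N, a n ≠ 0 → N ≤ 2 * n ∧ Supp J P L E n) →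
      ∀ S : Finset ℝ, (∀ t ∈ S, 0 ≤ t ∧ t ≤ T) → (∀ t ∈ S, ∀ u ∈ S, t ≠ u → 1 ≤ |t - u|) →
        ((∀ n, ‖a n‖ ≤ 1) → ∑ t ∈ S, ‖D N a t‖ ^ 2 ≤ C * ((N : ℝ) + S.card) * N) ∧
        (E = ∅ → ∑ t ∈ S, ‖D N a t‖ ^ 2 ≤
          C * ((N : ℝ) ^ (3 / 2 - c) + S.card * (N : ℝ) ^ (1 / 2 - c)) * ∑ n ∈ Icc 1 N, ‖a n‖ ^ 2) := by
  obtain ⟨c, C, hc0, hC0, h⟩ := onOne A μ ω K hA hμ hμ1 hω hK
  refine ⟨c, C, hc0, ?_⟩
  intro N J P L E T a hN hBE hT hs S hS hsep
  obtain ⟨h1, h2, h3⟩ := hBE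
  -- the values as natural numbers
  set f : ℕ → ℕ → ℕ := fun j x => ⌊(P j).eval (x : ℝ)⌋₊ with hf
  have hfe : ∀ j ∈ J, ∀ x < L j, (f j x : ℝ) = (P j).eval (x : ℝ) ∧ N ≤ 2 * f j x ∧ f j x ≤ N := by
    intro j hj x hx
    obtain ⟨n, hn, hn1, hn2⟩ := (h1 j hj).2.2.1 x hx
    have e : f j x = n := by
      rw [hf]
      simp only [hn, Nat.floor_natCast]
    rw [e, hn]
    exact ⟨rfl, hn1, hn2⟩
  refine h N J L f E hN ?_ h2 h3 T 0 S a hT hsep (fun t ht => ⟨(hS t ht).1, by linarith [(hS t ht).2]⟩) ?_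
  · intro j hj
    obtain ⟨a1, a2, a3, x, hx, y, hy, hxy⟩ := h1 j hj
    refine ⟨a2, ⟨P j, a1, fun x hx => (hfe j hj x hx).1⟩, fun x hx => (hfe j hj x hx).2, x, hx, y, hy, ?_⟩
    rw [(hfe j hj x hx).1, (hfe j hj y hy).1]
    exact hxy
  · intro n hn hne
    obtain ⟨h4, h5⟩ := hs n hn hne
    refine ⟨h4, ?_⟩
    rcases h5 with h5 | ⟨j, hj, x, hx, hxn⟩
    · exact Or.inl h5
    · refine Or.inr ⟨j, hj, x, hx, ?_⟩
      have e := (hfe j hj x hx).1
      rw [hxn] at e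
      exact_mod_cast e.symm

end Pool.Agent.Results.MP_71ac24_nt.PolynomialValues
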