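import Mathlib
import Pool.Agent.U108.DT.P

set_option autoImplicit false

/-!
# Montgomery's conjecture for Dirichlet polynomials supported on integers with restricted digits

For every base `b` and every `B`, `m`, `ω > 0` there is `c > 0` such that the inequality of Q1 holds, without the loss
`N^ε` and for all `T ≤ N^B`, for all coefficients bounded by `1` supported on the numbers `A_j + Q_j x`, where the digits
of `x < b^(l_j)` in base `b` lie in arbitrary sets of at least two digits (depending on `j` and on the place), provided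
that there are at most `N^(1/2+c)` such numbers; and on any `N^(1/2)` further integers. In particular it holds for all
coefficients bounded by `1` supported on the integers below `N = b^k` with arbitrarily restricted digits (at least two
digits at every place), if there are at most `N^(1/2+c)` of them.

Proof. The weighted large sieve inequality of Halász and Montgomery; the kernel is a sum of the sums
`∑ (A_j + Q_j x)^{it}` over the `x` with restricted digits. These sums save a power of `N` for `N ≤ |t| ≤ N^B`: for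
suitable `r` the difference operators in the digits of `r + 2` disjoint windows turn the phase `t log (A + Q x)` into a
product of the contents of the windows times a factor of size about `t (Q/A)^(r+2)`, with a small error, and the
exponential sum over the product saves a power as the Fourier transform of the contents of a window is small at all
places except for few.
-/

namespace Pool.Agent.Results.MP_71ac24_nt.RestrictedDigitSupports

open Finset

/-- `D(t) = ∑_{n ≤ N} a_n n^{it}` -/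
noncomputable def D (N : ℕ) (a : ℕ → ℂ) (t : ℝ) : ℂ :=
  ∑ n ∈ Icc 1 N, a n * Complex.exp (Complex.I * (t : ℂ) * (Real.log (n : ℝ) : ℂ))

/-- The integers `0 ≤ x < b ^ l` whose `i`-th digit in base `b` lies in `G i`, for all `i < l`. -/
def Dig (b : ℕ) (G : ℕ → Finset ℕ) (l : ℕ) : Finset ℕ :=
  (range (b ^ l)).filter (fun x : ℕ => ∀ i < l, x / b ^ i % b ∈ G i)

/-- `n` lies in `E` or is one of the numbers `A_j + Q_j x`, `x ∈ Dig b (G j) (l j)`, `j ∈ J`. -/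
def Supp (b : ℕ) (J : Finset ℕ) (l A Q : ℕ → ℕ) (G : ℕ → ℕ → Finset ℕ) (E : Finset ℕ) (n : ℕ) : Prop :=
  n ∈ E ∨ ∃ j ∈ J, ∃ x ∈ Dig b (G j) (l j), n = A j + Q j * x

/-- For `j ∈ J`: `Q_j ≥ 1`, `ω A_j ≤ Q_j b ^ (l_j) ≤ A_j`, `b ^ (m l_j) ≥ N`, the sets `G j i`, `i < l_j`, are sets of
at least two digits in base `b`, and `A_j + Q_j x ≤ N` for all `x ∈ Dig b (G j) (l j)`; moreover the sum over `j ∈ J` of
the numbers of elements of `Dig b (G j) (l j)` is at most `N^(1/2+c)` and `E` has at most `N^(1/2)` elements. -/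
def Thin (N b m : ℕ) (ω c : ℝ) (J : Finset ℕ) (l A Q : ℕ → ℕ) (G : ℕ → ℕ → Finset ℕ) (E : Finset ℕ) : Prop :=
  (∀ j ∈ J, 1 ≤ Q j ∧ Q j * b ^ l j ≤ A j ∧ ω * A j ≤ Q j * (b : ℝ) ^ l j ∧ N ≤ b ^ (m * l j) ∧
    (∀ i < l j, G j i ⊆ range b ∧ 2 ≤ (G j i).card) ∧ ∀ x ∈ Dig b (G j) (l j), A j + Q j * x ≤ N) ∧
    ∑ j ∈ J, ((Dig b (G j) (l j)).card : ℝ) ≤ (N : ℝ) ^ (1 / 2 + c) ∧ (E.card : ℝ) ≤ (N : ℝ) ^ (1 / 2 : ℝ)

/-- Let `b ≥ 2`, `B` (for Q1: `B = 2`), `m` be natural numbers and `ω > 0`.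

(1) There are `c > 0` and `C` such that for all `T ≤ N^B`, all families of numbers with restricted digits and all `E`
satisfying `Thin`, all complex `a_1, …, a_N` vanishing outside the set `Supp`, and all `1`-separated `W ⊂ [0,T]`:
`∑_{t ∈ W} |D(t)|² ≤ C (N + |W|) N` if `|a_n| ≤ 1` for all `n`; and
`∑_{t ∈ W} |D(t)|² ≤ C (N^(3/2-c) + |W| N^(1/2-c)) ∑ |a_n|²` if `E` is empty.

(2) There are `c > 0` and `C` such that for all `k ≥ 2`, `N = b^k`, `T ≤ N^B`, all sets `G i`, `i < k`, of at least two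
digits in base `b` such that the set `Dig b G k` of the integers below `N` with `i`-th digit in `G i` has at most
`N^(1/2+c)` elements, all `|a_n| ≤ 1` vanishing outside `Dig b G k`, and all `1`-separated `W ⊂ [0,T]`:
`∑_{t ∈ W} |D(t)|² ≤ C (N + |W|) N`. -/
theorem result (b m B : ℕ) (hb : 2 ≤ b) (ω : ℝ) (hω : 0 < ω) :
    (∃ c C : ℝ, 0 < c ∧ ∀ (N : ℕ) (J : Finset ℕ) (l A Q : ℕ → ℕ) (G : ℕ → ℕ → Finset ℕ) (E : Finset ℕ) (T : ℝ) (a : ℕ → ℂ),
      2 ≤ N → Thin N b m ω c J l A Q G E → T ≤ (N : ℝ) ^ B →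
      (∀ n ∈ Icc 1 N, a n ≠ 0 → Supp b J l A Q G E n) →
      ∀ W : Finset ℝ, (∀ t ∈ W, 0 ≤ t ∧ t ≤ T) → (∀ t ∈ W, ∀ u ∈ W, t ≠ u → 1 ≤ |t - u|) →
        ((∀ n, ‖a n‖ ≤ 1) → ∑ t ∈ W, ‖D N a t‖ ^ 2 ≤ C * ((N : ℝ) + W.card) * N) ∧
        (E = ∅ → ∑ t ∈ W, ‖D N a t‖ ^ 2 ≤
          C * ((N : ℝ) ^ (3 / 2 - c) + W.card * (N : ℝ) ^ (1 / 2 - c)) * ∑ n ∈ Icc 1 N, ‖a n‖ ^ 2)) ∧
    (∃ c C : ℝ, 0 < c ∧ ∀ (k : ℕ) (G : ℕ → Finset ℕ) (T : ℝ) (a : ℕ → ℂ), 2 ≤ k →
      (∀ i < k, G i ⊆ range b ∧ 2 ≤ (G i).card) → ((Dig b G k).card : ℝ) ≤ ((b ^ k : ℕ) : ℝ) ^ (1 / 2 + c) →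
      T ≤ ((b ^ k : ℕ) : ℝ) ^ B → (∀ n, ‖a n‖ ≤ 1) → (∀ n ∈ Icc 1 (b ^ k), a n ≠ 0 → n ∈ Dig b G k) →
      ∀ W : Finset ℝ, (∀ t ∈ W, 0 ≤ t ∧ t ≤ T) → (∀ t ∈ W, ∀ u ∈ W, t ≠ u → 1 ≤ |t - u|) →
        ∑ t ∈ W, ‖D (b ^ k) a t‖ ^ 2 ≤ C * (((b ^ k : ℕ) : ℝ) + W.card) * (b ^ k : ℕ)) := by
  constructor
  · obtain ⟨c, C, hc, _, h⟩ := Pool.Agent.U108.DT.AS.digitN b hb m B ω hω
    refine ⟨c, C, hc, ?_⟩
    intro N J l A Q G E T a hN hThin hT hs W hW hsep
    exact h N J l A Q G E T hN hThin.1 hThin.2.1 hThin.2.2 hT 0 W a hsep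
      (fun t ht => ⟨(hW t ht).1, by linarith [(hW t ht).2]⟩) hs
  · obtain ⟨c, C, hc, _, h⟩ := Pool.Agent.U108.DT.AS.digitCor b hb B
    refine ⟨c, C, hc, ?_⟩
    intro k G T a hk hG hcard hT ha hs W hW hsep
    exact h k G T hk hG hcard hT 0 W a hsep (fun t ht => ⟨(hW t ht).1, by linarith [(hW t ht).2]⟩) hs ha

end Pool.Agent.Results.MP_71ac24_nt.RestrictedDigitSupports
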