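import Mathlib
import Pool.Agent.U332.PW.Main

/-!
# The loss in Montgomery's conjecture for almost every polynomial twist of degree `d`

Let `D(t) = ∑_{n ≤ N} a_n n^{it}` with ARBITRARY coefficients `|a_n| ≤ 1`. For all `β ∈ [0,1]^d` outside
a set of measure `O(N^(-c))` the coefficients `a_n e(β_1 n + … + β_d n^d)` satisfy, for all `T ≤ N^A`
and all `1`-separated `W ⊂ [0, T]` at once, the inequality of Q1 with the loss
`(T / N)^(1 / (d + 1))`, and without loss if `|W|^d T ≤ N^(d + 1)` (for `T = N^2`: if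
`|W| ≤ N^(1 - 1/d)`).

Proof: Hölder's inequality and the moments of order `2 (d + 1)` of helper485
(`Pool/Agent/U485/PT/Bound.lean`: Newton's identities and the divisor bound) in dyadic blocks.
-/

set_option autoImplicit false

namespace Pool.Agent.Results.MP_71ac24_nt.TwistLossFactor

open Finset MeasureTheory

/-- The Dirichlet polynomial `D(t) = ∑_{1 ≤ n ≤ N} a_n n^{it}`. -/
noncomputable def D (N : ℕ) (a : ℕ → ℂ) (t : ℝ) : ℂ :=
  ∑ n ∈ Icc 1 N, a n * Complex.exp (Complex.I * (t : ℂ) * ((Real.log (n : ℝ) : ℝ) : ℂ))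

/-- The coefficients `a_n e(β_1 n + β_2 n² + … + β_d n^d)`, `e(x) = exp(2πix)`. -/
noncomputable def twist (d : ℕ) (β : Fin d → ℝ) (a : ℕ → ℂ) (n : ℕ) : ℂ :=
  a n * Complex.exp (2 * Real.pi * Complex.I * ((∑ j : Fin d, β j * (n : ℝ) ^ (j.val + 1) : ℝ) : ℂ))

/-- The three inequalities for all `N ≤ T ≤ N^A` and all `1`-separated sets `W` of points of `[0, T]`;
`S` is the sum of `|D(t)|^2` over `W`. -/
def Good (d N : ℕ) (b : ℕ → ℂ) (A ε C : ℝ) : Prop :=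
  ∀ T : ℝ, (N : ℝ) ≤ T → T ≤ (N : ℝ) ^ A → ∀ W : Finset ℝ, (∀ t ∈ W, 0 ≤ t ∧ t ≤ T) →
    (∀ t ∈ W, ∀ s ∈ W, t ≠ s → 1 ≤ |t - s|) →
      ∀ S : ℝ, S = ∑ t ∈ W, ‖D N b t‖ ^ 2 →
        S ≤ C * (N : ℝ) ^ ε * ((W.card : ℝ) + ((W.card : ℝ) ^ d * T) ^ (1 / ((d : ℝ) + 1))) * N ∧
        S ≤ C * (N : ℝ) ^ ε * (T / N) ^ (1 / ((d : ℝ) + 1)) * ((N : ℝ) + W.card) * N ∧
        ((W.card : ℝ) ^ d * T ≤ (N : ℝ) ^ (d + 1) → S ≤ C * (N : ℝ) ^ ε * ((N : ℝ) + W.card) * N)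

theorem D_twist (d N : ℕ) (β : Fin d → ℝ) (a : ℕ → ℂ) (t : ℝ) :
    D N (twist d β a) t = Pool.Agent.U332.PW.DF d N a β t := by
  unfold D twist Pool.Agent.U332.PW.DF Pool.Agent.U332.PW.tm
  refine sum_congr rfl fun n _ => ?_
  rw [mul_assoc, ← Complex.exp_add]
  congr 2
  unfold Pool.Agent.U485.PT.pha
  push_cast
  ring

/-- Let `d ≥ 0`, `A ≥ 1`, `ε > 0`. There are `C, c > 0` such that for all `N ≥ 1` and all
coefficients `|a_n| ≤ 1` the inequalities hold for the coefficients twisted by `β`, for all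
`β ∈ [0,1]^d` outside a set of measure at most `C N^(-c)`. -/
theorem result (d : ℕ) (A ε : ℝ) (hA : 1 ≤ A) (hε : 0 < ε) :
    ∃ C c : ℝ, 0 < C ∧ 0 < c ∧ ∀ N : ℕ, 1 ≤ N → ∀ a : ℕ → ℂ, (∀ n, ‖a n‖ ≤ 1) →
      volume {β : Fin d → ℝ | β ∈ Set.Icc 0 1 ∧ ¬ Good d N (twist d β a) A ε C} ≤
        ENNReal.ofReal (C * (N : ℝ) ^ (-c)) := by
  obtain ⟨C, c, hC, hc, hmain⟩ := Pool.Agent.U332.PW.main d A ε hA hε
  refine ⟨2 * C, c, by positivity, hc, ?_⟩
  intro N hN a ha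
  have hN1 : (1 : ℝ) ≤ N := by exact_mod_cast hN
  have hN0 : (0 : ℝ) < N := by linarith
  have hle : ENNReal.ofReal (C * (N : ℝ) ^ (-c)) ≤ ENNReal.ofReal (2 * C * (N : ℝ) ^ (-c)) := by
    apply ENNReal.ofReal_le_ofReal
    have : 0 ≤ C * (N : ℝ) ^ (-c) := mul_nonneg hC.le (Real.rpow_nonneg hN0.le _)
    linarith
  refine ((measure_mono ?_).trans (hmain N hN a ha)).trans hle
  rintro β ⟨hβ, hbad⟩
  refine ⟨hβ, fun hgood => hbad ?_⟩
  intro T hT1 hT2 W hW hsep S hS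
  have h1 := hgood T hT1 hT2 W hW hsep
  have hT0 : 0 < T := by linarith
  have hSe : S = ∑ t ∈ W, ‖Pool.Agent.U332.PW.DF d N a β t‖ ^ 2 := by
    rw [hS]
    refine sum_congr rfl fun t _ => ?_
    rw [D_twist]
  rw [← hSe] at h1
  set w : ℝ := (W.card : ℝ) with hw
  have hw0 : 0 ≤ w := Nat.cast_nonneg _
  have hk : ((((d + 1 : ℕ) : ℝ))⁻¹) = 1 / ((d : ℝ) + 1) := by push_cast; rw [one_div]
  rw [hk] at h1
  set κ : ℝ := 1 / ((d : ℝ) + 1) with hκ
  have hκ0 : 0 < κ := by positivity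
  have hd1 : ((d : ℝ) + 1) * κ = 1 := by rw [hκ]; field_simp
  set P : ℝ := (w ^ d * T) ^ κ with hP
  have hP0 : 0 ≤ P := Real.rpow_nonneg (by positivity) _
  have hE : (N : ℝ) ^ (1 + ε) = (N : ℝ) ^ ε * N := by
    rw [Real.rpow_add hN0, Real.rpow_one]; ring
  have hE0 : 0 < (N : ℝ) ^ ε := Real.rpow_pos_of_pos hN0 _
  rw [hE] at h1
  -- the maximum
  set m : ℝ := (N : ℝ) + w with hm
  have hm0 : 0 < m := by positivity
  have hmw : w ≤ m := by linarith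
  have hmN : (N : ℝ) ≤ m := by linarith
  have hkey : ∀ X : ℝ, 0 ≤ X → w ^ d * X ≤ m ^ (d + 1) → (w ^ d * X) ^ κ ≤ m := by
    intro X hX h
    calc (w ^ d * X) ^ κ ≤ (m ^ (d + 1)) ^ κ := Real.rpow_le_rpow (by positivity) h hκ0.le
      _ = m := by
        rw [← Real.rpow_natCast, ← Real.rpow_mul hm0.le]
        push_cast
        rw [hd1, Real.rpow_one]
  refine ⟨?_, ?_, ?_⟩
  · calc S ≤ C * ((N : ℝ) ^ ε * N) * (w + P) := h1
      _ = C * (N : ℝ) ^ ε * (w + P) * N := by ring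
      _ ≤ 2 * C * (N : ℝ) ^ ε * (w + P) * N := by
        have : 0 ≤ C * (N : ℝ) ^ ε * (w + P) * N := by positivity
        linarith
  · have h2 : P ≤ (T / N) ^ κ * m := by
      have h3 : w ^ d * T = (T / N) * (w ^ d * N) := by field_simp
      rw [hP, h3, Real.mul_rpow (by positivity) (by positivity)]
      refine mul_le_mul_of_nonneg_left ?_ (Real.rpow_nonneg (by positivity) _)
      apply hkey N hN0.le
      calc w ^ d * N ≤ m ^ d * m := by gcongr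
        _ = m ^ (d + 1) := by ring
    have h3 : (1 : ℝ) ≤ (T / N) ^ κ := by
      apply Real.one_le_rpow _ hκ0.le
      rw [le_div_iff₀ hN0, one_mul]
      exact hT1
    have h4 : w ≤ (T / N) ^ κ * m := by nlinarith
    calc S ≤ C * ((N : ℝ) ^ ε * N) * (w + P) := h1
      _ ≤ C * ((N : ℝ) ^ ε * N) * ((T / N) ^ κ * m + (T / N) ^ κ * m) :=
        mul_le_mul_of_nonneg_left (by linarith) (by positivity)
      _ = 2 * C * (N : ℝ) ^ ε * (T / N) ^ κ * m * N := by ring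
  · intro h
    have h2 : P ≤ m := by
      apply hkey T hT0.le
      exact h.trans (pow_le_pow_left₀ hN0.le hmN _)
    calc S ≤ C * ((N : ℝ) ^ ε * N) * (w + P) := h1
      _ ≤ C * ((N : ℝ) ^ ε * N) * (m + m) :=
        mul_le_mul_of_nonneg_left (by linarith) (by positivity)
      _ = 2 * C * (N : ℝ) ^ ε * m * N := by ring

end Pool.Agent.Results.MP_71ac24_nt.TwistLossFactor
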